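import Pool.Agent.Zk48.PI.CK

/-!
# The second polynomial numerical index of the real spaces `C(K)` is one half

For the real space `C[0,1]`, and for all real spaces `C(K)`, `K` a compact Hausdorff space with at
least two points, `n⁽²⁾ = 1 / 2`. So the answer to Q1 is negative.

Upper bound: let `a : K → [0,1]` be continuous, `a(t₀) = 0`, `a(t₁) = 1`. The polynomial
`P x = a (x(t₀)² - x² / 2)` has norm one (take `x = 1 - a`). If `x*(x) = 1 = ‖x*‖ = ‖x‖`, then `x*`
kills `a (1 - x²)`, so `x*(P x) = (x(t₀)² - 1 / 2) x*(a)`, which is at most `1 / 2`.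

Lower bound: `x` is, near a point `t` where `|P x|` is large, a convex combination of two functions
`x₁`, `x₂` in the unit ball with `x₁(t) = 1`, `x₂(t) = -1`, and
`P (l x₁ + (1 - l) x₂) = l P x₁ + (1 - l) P x₂ - l (1 - l) P (x₁ - x₂)`.
-/

set_option autoImplicit false

universe u

namespace Pool.Agent.Results.MP_6cf06e_an.RealContinuousFunctions

open Pool.Agent.Zk48.PI

/-- **The second polynomial numerical index of the real space `C[0,1]` is `1 / 2`**, and so is the
one of `C(K)` for all compact Hausdorff spaces `K` with at least two points. -/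
theorem result :
    polyIndex ℝ 2 C(Set.Icc (0 : ℝ) 1, ℝ) = 1 / 2 ∧
    ∀ (K : Type u) [TopologicalSpace K] [CompactSpace K] [T2Space K] [Nontrivial K],
      polyIndex ℝ 2 C(K, ℝ) = 1 / 2 := by
  refine ⟨?_, fun K _ _ _ _ => index_CK⟩
  have : Nontrivial (Set.Icc (0 : ℝ) 1) :=
    ⟨⟨⟨0, by norm_num⟩, ⟨1, by norm_num⟩, fun h => by simpa using congrArg Subtype.val h⟩⟩
  exact index_CK

end Pool.Agent.Results.MP_6cf06e_an.RealContinuousFunctions
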