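import Pool.Agent.Zk48.PI.L1low

/-!
# The second polynomial numerical index of `L₁[0,1]`

For the real space `L₁[0,1]` one has `n⁽²⁾ = 1 / 2`, for the complex space `n⁽²⁾ ≤ 1 / 2`. So
the answer to Q2 is negative in both cases. The same is true for all spaces `L₁(μ)` of dimension at
least two.

Upper bound: let `S`, `S'` be complementary sets, `x₁ = 1_S x`, `x₂ = 1_{S'} x`, `s₁ = ∫ x₁`, `s₂ = ∫ x₂`.
The polynomial `P x = ((s₁ + 3 s₂) x₁ - (3 s₁ + s₂) x₂) / 2` has norm one. If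
`x*(x) = 1 = ‖x*‖ = ‖x‖`, then `x*(x_i) = ‖x_i‖ = r_i`, and
`|2 x*(P x)| = |s₁ (r₁ - 3 r₂) + s₂ (3 r₁ - r₂)| ≤ r₁ |r₁ - 3 r₂| + r₂ |3 r₁ - r₂| ≤ 1`.

Lower bound in the real case: if `h = ± 1` is the sign of `P x`, then `x` is a convex combination of
two functions `x₁`, `x₂` of norm one with `h x₁ ≥ 0`, `h x₂ ≤ 0`, and
`P (l x₁ + (1 - l) x₂) = l P x₁ + (1 - l) P x₂ - l (1 - l) P (x₁ - x₂)`.
-/

set_option autoImplicit false

universe u

namespace Pool.Agent.Results.MP_6cf06e_an.IntegrableFunctions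

open MeasureTheory Pool.Agent.Zk48.PI

/-- **The second polynomial numerical index of `L₁[0,1]`** is `1 / 2` over the real and at most `1 / 2`
over the complex numbers; and likewise for `L₁(μ)`, if there are two disjoint sets of finite positive
measure. -/
theorem result :
    (polyIndex ℝ 2 (Lp ℝ 1 (volume.restrict (Set.Icc (0 : ℝ) 1))) = 1 / 2 ∧
      polyIndex ℂ 2 (Lp ℂ 1 (volume.restrict (Set.Icc (0 : ℝ) 1))) ≤ 1 / 2) ∧
    ∀ (α : Type u) [MeasurableSpace α] (μ : Measure α),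
      (∃ S T : Set α, MeasurableSet S ∧ MeasurableSet T ∧ Disjoint S T ∧ 0 < μ S ∧ μ S < ⊤ ∧
        0 < μ T ∧ μ T < ⊤) →
      polyIndex ℝ 2 (Lp ℝ 1 μ) = 1 / 2 ∧ polyIndex ℂ 2 (Lp ℂ 1 μ) ≤ 1 / 2 := by
  refine ⟨?_, fun α _ μ h => ⟨index_L1_real h, index_L1_le h⟩⟩
  have h : TwoSets (volume.restrict (Set.Icc (0 : ℝ) 1)) := by
    have e1 : Set.Ico (0 : ℝ) (1 / 2) ∩ Set.Icc 0 1 = Set.Ico (0 : ℝ) (1 / 2) :=
      Set.inter_eq_left.mpr fun t ht => ⟨ht.1, by linarith [ht.2]⟩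
    have e2 : Set.Icc (1 / 2 : ℝ) 1 ∩ Set.Icc 0 1 = Set.Icc (1 / 2 : ℝ) 1 :=
      Set.inter_eq_left.mpr fun t ht => ⟨by linarith [ht.1], ht.2⟩
    refine ⟨Set.Ico 0 (1 / 2), Set.Icc (1 / 2) 1, measurableSet_Ico, measurableSet_Icc, ?_, ?_, ?_,
      ?_, ?_⟩
    · rw [Set.disjoint_left]
      intro t h1 h2
      linarith [h1.2, h2.1]
    · rw [Measure.restrict_apply measurableSet_Ico, e1]; simp
    · rw [Measure.restrict_apply measurableSet_Ico, e1]; simp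
    · rw [Measure.restrict_apply measurableSet_Icc, e2]; simp; norm_num
    · rw [Measure.restrict_apply measurableSet_Icc, e2]; simp
  exact ⟨index_L1_real h, index_L1_le h⟩

end Pool.Agent.Results.MP_6cf06e_an.IntegrableFunctions
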